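import Pool.Agent.H92.EHD.TK
import Pool.Agent.H14.EQ.TZ

/-!
# Board ehd_modules (MP_75a732_an), row ETZ
-/

set_option autoImplicit false

namespace Pool.Agent.H90.EHD

open scoped BigOperators ComplexConjugate ContDiff ComplexOrder
open MeasureTheory
open Pool.Agent.H92.EQ Pool.Agent.H92.EHD
open Pool.Agent.H14.EQ (gs_nonneg gs_cont gs_int dl chg pair_zero)

theorem cut_rep {k : ℕ} (X : Fin (k + 1) → Fin (k + 1) → ℂ) (i j : Fin (k + 1)) (t : ℂ)
    (h : i ≠ 0 ∨ j = 0) : cut 1 (rep X i j t) = rep (cut 1 X) i j t := by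
  funext a b
  unfold cut row0 rep
  by_cases ha : a = 0
  · subst ha
    rcases h with h | h
    · have h0 : (0 : Fin (k + 1)) ≠ i := fun h1 => h h1.symm
      simp [Function.update_of_ne h0]
    · subst h
      by_cases hi : i = 0
      · subst hi
        by_cases hb : b = 0
        · subst hb
          simp
        · simp [Function.update_of_ne hb]
      · have h0 : (0 : Fin (k + 1)) ≠ i := fun h1 => hi h1.symm
        simp [Function.update_of_ne h0]
  · by_cases hi : a = i
    · subst hi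
      simp [Function.update_of_ne ha]
    · simp [Function.update_of_ne ha, Function.update_of_ne hi]

theorem cut_rep0 {k : ℕ} (X : Fin (k + 1) → Fin (k + 1) → ℂ) (j : Fin (k + 1)) (t : ℂ)
    (h : j ≠ 0) : cut 1 (rep X 0 j t) = cut 1 X := by
  funext a b
  unfold cut row0 rep
  by_cases ha : a = 0
  · subst ha
    by_cases hb : b = 0
    · subst hb
      have h0 : (0 : Fin (k + 1)) ≠ j := fun h1 => h h1.symm
      simp [Function.update_of_ne h0]
    · simp [hb]
  · simp [Function.update_of_ne ha]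

theorem cut_cont (k : ℕ) :
    Continuous fun X : Fin (k + 1) → Fin (k + 1) → ℂ => cut 1 X := by
  refine continuous_pi fun a => continuous_pi fun b => ?_
  unfold cut row0
  by_cases ha : a = 0
  · subst ha
    simp only [Function.update_self]
    by_cases hb : (b : ℕ) < 1
    · simp only [hb, if_true]
      exact (continuous_apply b).comp (continuous_apply (0 : Fin (k + 1)))
    · simp only [hb, if_false]
      exact continuous_const
  · simp only [Function.update_of_ne ha]
    exact (continuous_apply b).comp (continuous_apply a)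

theorem pf_ETZ (hTG : T_ETG) (hTI : T_ETI) (hTJ : T_TJ) (hTK : T_TK) (hTL : T_TL)
    (hTM : T_TM) (hTN : T_TN) (hL1 : T_L1) (hL6 : T_L6) : T_ETZ := by
  intro k p q
  by_cases hN : p + q + 1 = k + 1
  swap
  · refine ⟨1, one_pos, fun D Φ hD hΦ w w' u hw hw' hu S hS θ hθ hθ1 => ?_⟩
    have h1 : ∀ A, am (fun z => w z - w' z) Φ S u A = 0 := fun A => pair_zero hN _ _ _
    have h2 : mass q S = 0 := pair_zero hN _ _ _
    simp [h1, h2]
  obtain ⟨c0, hc0, hJ⟩ := hTJ
  obtain ⟨C, hC, hL⟩ := hTL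
  have hN0 : 0 < ((k + 1 : ℕ) : ℝ) := by
    exact_mod_cast Nat.succ_pos k
  refine ⟨((k + 1 : ℕ) : ℝ) ^ 2 * (C * (c0 * ((q + 1) * ((k + 1 : ℕ) : ℝ)))), by positivity,
    fun D Φ hD hΦ w w' u hw hw' hu S hS θ hθ hθ1 => ?_⟩
  have hhom : Hom0 (fun z => w z - w' z) := by
    have h1 := (hL1 (k + 1) 1 1 1 (-1) w w').1 ((hL1 (k + 1) 1 1 1 1 w w).2.2.1 hw)
      ((hL1 (k + 1) 1 1 1 1 w' w').2.2.1 hw')
    have h2 : (fun z => (1 : ℝ) * w z + -1 * w' z) = fun z => w z - w' z := by
      funext z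
      ring
    rw [h2] at h1
    refine (hL1 (k + 1) 0 0 0 0 (fun z => w z - w' z) w').2.1.2 ?_
    have h3 : (1 : ℝ) * 1 + -1 * 1 = 0 := by norm_num
    rwa [h3] at h1
  obtain ⟨B, hB, hBb⟩ := (hL6 (k + 1)).1 (fun z => w z - w' z) hhom.smooth.continuousOn
    (fun r z hr hz => hhom.hom (r : ℂ) z (by exact_mod_cast hr.ne') hz)
  obtain ⟨hcont, hbd, -⟩ := hTN (k + 1) p q D Φ S (fun z => w z - w' z) u B hN hD hΦ hS hhom
    hu hBb
  have hD0 : 0 < (D : ℝ) := by exact_mod_cast hD
  have hmass : 0 ≤ mass q S := by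
    have h1 := (abs_nonneg _).trans (hbd 1 (by simp))
    have h2 : 0 < B * (D : ℝ) ^ p := by positivity
    rw [← mul_assoc] at h1
    exact nonneg_of_mul_nonneg_right h1 h2
  have hlog : 0 ≤ 1 + Real.log (1 / θ) := by
    have h1 : 0 ≤ Real.log (1 / θ) := Real.log_nonneg (by rw [le_div_iff₀ hθ]; linarith)
    linarith
  set b : (Fin (k + 1) → Fin (k + 1) → ℂ) → ℝ :=
    fun X => am (fun z => w z - w' z) Φ S u (Matrix.of (cut 1 X)) with hb
  set A : ℝ := (q + 1) * ((k + 1 : ℕ) : ℝ) * ((D : ℝ) ^ p / D) * mass q S with hA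
  have hA0 : 0 ≤ A := by positivity
  set M : ℝ := c0 * A with hM
  have hM0 : 0 ≤ M := by positivity
  have h1s : (0 : ℝ) < θ ^ 2 := by positivity
  -- one entry moves
  have key : ∀ i j : Fin (k + 1), ∀ᵐ X : Fin (k + 1) → Fin (k + 1) → ℂ,
      |∫ t, b (rep X i j t) * (gs (θ ^ 2) (t - dl (k + 1) i j) - gs 1 t)| ≤
        C * (1 + Real.log (1 / θ)) * M := by
    intro i j
    by_cases hij : i ≠ 0 ∨ j = 0
    swap
    · push Not at hij
      obtain ⟨hi, hj⟩ := hij
      subst hi
      refine Filter.Eventually.of_forall fun X => ?_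
      have h1 : ∀ t, b (rep X 0 j t) = b X := fun t => by
        simp only [hb, cut_rep0 X j t hj]
      simp only [h1]
      rw [integral_const_mul, integral_sub ((gs_int h1s).1.comp_sub_right _) (gs_int one_pos).1,
        integral_sub_right_eq_self (gs (θ ^ 2)) (dl (k + 1) 0 j), (gs_int h1s).2,
        (gs_int one_pos).2, sub_self, mul_zero, abs_zero]
      positivity
    filter_upwards [hTG k i j hij] with X hX
    obtain ⟨-, t1, C1, ht1⟩ := hX
    obtain ⟨F, F', C2, hm, hmc, hmc', hFc, hFc', hF, hF', hW, hW', hac, haW⟩ :=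
      hTI (k + 1) p q D Φ S w w' u (cut 1 X) i j t1 C1 hN hD hΦ hS hw hw' hu
        (fun t ht => (ht1 t ht).1) (fun t ht => (ht1 t ht).2) _ _ rfl rfl
    generalize hmd : mT (pull (Pool.Agent.H14.EQ.GP Φ (cut 1 X) i j) S)
        (fun l z => (Fin.cons w u : Fin (q + 1) → (Fin (k + 1) → ℂ) → ℝ) l (tl z)) = m
      at hm hmc hW haW
    generalize hmd' : mT (pull (Pool.Agent.H14.EQ.GP Φ (cut 1 X) i j) S)
        (fun l z => (Fin.cons w' u : Fin (q + 1) → (Fin (k + 1) → ℂ) → ℝ) l (tl z)) = m'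
      at hm hmc' hW' haW
    have h1 := hJ t1 F m A (max C2 0) hA0 (le_max_right _ _) hFc hmc (fun t ht => (hm t ht).1)
      (fun t ht => (hF t ht).trans (add_le_add_right (le_max_left _ _) _)) hW
    have h2 := hJ t1 F' m' A (max C2 0) hA0 (le_max_right _ _) hFc' hmc'
      (fun t ht => (hm t ht).2)
      (fun t ht => (hF' t ht).trans (add_le_add_right (le_max_left _ _) _)) hW'
    have hbe : ∀ t, b (rep X i j t) =
        am (fun z => w z - w' z) Φ S u (Matrix.of (rep (cut 1 X) i j t)) := fun t => by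
      simp only [hb, cut_rep X i j t hij]
    simp only [hbe]
    have hab : ∀ t, t ≠ t1 →
        |am (fun z => w z - w' z) Φ S u (Matrix.of (rep (cut 1 X) i j t))| ≤
          B * ((D : ℝ) ^ p * mass q S) := fun t ht =>
      hbd (Matrix.of (rep (cut 1 X) i j t)) (ht1 t ht).1
    refine hL t1 (dl (k + 1) i j)
      (fun t => am (fun z => w z - w' z) Φ S u (Matrix.of (rep (cut 1 X) i j t))) _ M θ hac
      hab hM0 ?_ hθ hθ1 ?_
    · unfold dl
      split_ifs <;> simp
    · intro ψ K K' hψ hK hK' i1 i2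
      exact hTK t1 (fun t => am (fun z => w z - w' z) Φ S u (Matrix.of (rep (cut 1 X) i j t)))
        m m' ψ _ M K K' hac hab hm hmc hmc' h1.1 h2.1 h1.2 h2.2 haW hψ hK hK' i1 i2
  have hae : ∀ᵐ X : Fin (k + 1) → Fin (k + 1) → ℂ, (Matrix.of (cut 1 X)).det ≠ 0 := by
    filter_upwards [hTG k 0 0 (Or.inr rfl)] with X hX
    exact hX.1
  have hmeas : AEStronglyMeasurable b := by
    have hopen : IsOpen {X : Fin (k + 1) → Fin (k + 1) → ℂ | (Matrix.of (cut 1 X)).det ≠ 0} := by
      have hc : Continuous fun X : Fin (k + 1) → Fin (k + 1) → ℂ =>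
          (Matrix.of (cut 1 X)).det :=
        Continuous.matrix_det (by
          refine continuous_pi fun i => continuous_pi fun j => ?_
          exact (continuous_apply j).comp ((continuous_apply i).comp (cut_cont k)))
      exact isOpen_ne_fun hc continuous_const
    have h0 : ContinuousOn b
        {X : Fin (k + 1) → Fin (k + 1) → ℂ | (Matrix.of (cut 1 X)).det ≠ 0} :=
      hcont.comp (cut_cont k).continuousOn fun X hX => hX
    have h1 := h0.aestronglyMeasurable (μ := volume) hopen.measurableSet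
    have h2 : (volume : Measure (Fin (k + 1) → Fin (k + 1) → ℂ)).restrict
        {X : Fin (k + 1) → Fin (k + 1) → ℂ | (Matrix.of (cut 1 X)).det ≠ 0} = volume :=
      Measure.restrict_eq_self_of_ae_mem hae
    rwa [h2] at h1
  have hTM' := hTM (k + 1) b (fun i j t => gs (θ ^ 2) (t - dl (k + 1) i j))
    (fun _ _ t => gs 1 t)
    (B * ((D : ℝ) ^ p * mass q S)) (C * (1 + Real.log (1 / θ)) * M) (by positivity) hmeas
    (by filter_upwards [hae] with X hX using hbd _ hX)
    (fun i j => ⟨(gs_cont _).comp (continuous_id.sub continuous_const), gs_cont _,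
      fun t => gs_nonneg h1s _, fun t => gs_nonneg one_pos _,
      (gs_int h1s).1.comp_sub_right _, (gs_int one_pos).1,
      by rw [integral_sub_right_eq_self (gs (θ ^ 2)) (dl (k + 1) i j)]; exact (gs_int h1s).2,
      (gs_int one_pos).2⟩) key
  obtain ⟨k1, k2, k3⟩ := hTM'
  have hgs : ∀ X : Fin (k + 1) → Fin (k + 1) → ℂ, ∏ i, ∏ j, gs 1 (X i j) = gss X := by
    intro X
    unfold gss gs
    simp
  obtain ⟨c1, c2⟩ := chg b hθ k1
  have hone : ∀ X : Fin (k + 1) → Fin (k + 1) → ℂ,
      e1 ((1 + (θ : ℂ) • Matrix.of X : Matrix (Fin (k + 1)) (Fin (k + 1)) ℂ)) =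
        Matrix.of (cut 1 (dl (k + 1) + θ • X)) := by
    intro X
    have h1 : ((1 + (θ : ℂ) • Matrix.of X : Matrix (Fin (k + 1)) (Fin (k + 1)) ℂ)) =
        Matrix.of (dl (k + 1) + θ • X) := by
      ext i j
      simp [dl, Matrix.one_apply]
    rw [h1]
    rfl
  have hb1 : ∀ X : Fin (k + 1) → Fin (k + 1) → ℂ, am (fun z => w z - w' z) Φ S u
      (e1 ((1 + (θ : ℂ) • Matrix.of X : Matrix (Fin (k + 1)) (Fin (k + 1)) ℂ))) =
        b (dl (k + 1) + θ • X) := fun X => by rw [hone]
  have hb2 : ∀ X : Fin (k + 1) → Fin (k + 1) → ℂ,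
      am (fun z => w z - w' z) Φ S u (e1 X) = b X := fun X => rfl
  simp only [hb1, hb2]
  refine ⟨c1, ?_, ?_⟩
  · refine k2.congr (Filter.Eventually.of_forall fun X => ?_)
    simp only [hgs]
    exact mul_comm _ _
  · have h5 : ∫ X : Fin (k + 1) → Fin (k + 1) → ℂ, gss X * b X =
        ∫ X : Fin (k + 1) → Fin (k + 1) → ℂ, b X * ∏ i, ∏ j, gs 1 (X i j) := by
      refine integral_congr_ae (Filter.Eventually.of_forall fun X => ?_)
      simp only [hgs]
      exact mul_comm _ _
    rw [c2, h5]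
    refine k3.trans (le_of_eq ?_)
    rw [hM, hA]
    ring

end Pool.Agent.H90.EHD
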